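import Pool.Agent.Helper57.Env.Stmts

/-!
# Packet J of MP_07d5fa_co: edges are controlled by vertices
-/

namespace Pool.Agent.Helper8.Env

open Set Pool.Agent.Helper57.Env

/-- If a subset `D` of a space is the union of a family of preconnected sets, it has at most as many
components as the family has members. -/
theorem card_components_le {Y : Type*} [TopologicalSpace Y] {I : Type*} (D : Set Y) (S : I → Set Y)
    (hS : ∀ i, IsPreconnected (S i)) (hsub : ∀ i, S i ⊆ D) (hcov : D ⊆ ⋃ i, S i) :
    ENat.card (ConnectedComponents D) ≤ ENat.card I := by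
  classical
  have h1 : ∀ c : ConnectedComponents D, ∃ i : I, ∃ x : D, ConnectedComponents.mk x = c ∧
      (x : Y) ∈ S i := by
    intro c
    obtain ⟨x, hx⟩ := ConnectedComponents.surjective_coe c
    obtain ⟨i, hi⟩ := mem_iUnion.1 (hcov x.2)
    exact ⟨i, x, hx, hi⟩
  choose g x hx hxg using h1
  refine ENat.card_le_card_of_injective (f := g) ?_
  intro c c' hcc
  rw [← hx c, ← hx c']
  rw [ConnectedComponents.coe_eq_coe']
  have hpre : IsPreconnected ((Subtype.val : D → Y) ⁻¹' (S (g c))) := by
    rw [← Topology.IsInducing.subtypeVal.isPreconnected_image]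
    rw [Subtype.image_preimage_coe, inter_eq_self_of_subset_right (hsub _)]
    exact hS _
  have hm1 : x c ∈ (Subtype.val : D → Y) ⁻¹' (S (g c)) := hxg c
  have hm2 : x c' ∈ (Subtype.val : D → Y) ⁻¹' (S (g c)) := by
    rw [hcc]; exact hxg c'
  exact hpre.subset_connectedComponent hm2 hm1

/-- The component of an open set of reals with right end point `p`. -/
def compR (O : Set ℝ) (p : ℝ) : Set ℝ := {x | x < p ∧ Ico x p ⊆ O}

/-- The component of an open set of reals which is unbounded to the right. -/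
def compI (O : Set ℝ) : Set ℝ := {x | Ici x ⊆ O}

theorem compR_pre (O : Set ℝ) (p : ℝ) : IsPreconnected (compR O p) := by
  rw [isPreconnected_iff_ordConnected]
  refine ⟨?_⟩
  intro x hx y hy z hz
  exact ⟨lt_of_le_of_lt hz.2 hy.1, fun w hw => hx.2 ⟨hz.1.trans hw.1, hw.2⟩⟩

theorem compI_pre (O : Set ℝ) : IsPreconnected (compI O) := by
  rw [isPreconnected_iff_ordConnected]
  refine ⟨?_⟩
  intro x hx y _ z hz
  exact fun w hw => hx (hz.1.trans hw)

theorem compR_sub (O : Set ℝ) (p : ℝ) : compR O p ⊆ O := fun x hx => hx.2 ⟨le_rfl, hx.1⟩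

theorem compI_sub (O : Set ℝ) : compI O ⊆ O := fun x hx => hx (le_refl x)

theorem open_cover (O : Set ℝ) (hO : IsOpen O) {x : ℝ} (hx : x ∈ O) :
    x ∈ compI O ∨ ∃ p, p ∉ O ∧ p ∈ closure O ∧ x ∈ compR O p := by
  by_cases h : Ici x ⊆ O
  · exact Or.inl h
  · right
    obtain ⟨y, hy, hyO⟩ := not_subset.1 h
    let s : Set ℝ := Ici x ∩ Oᶜ
    have hs : IsClosed s := isClosed_Ici.inter hO.isClosed_compl
    have hne : s.Nonempty := ⟨y, hy, hyO⟩
    have hbd : BddBelow s := ⟨x, fun z hz => hz.1⟩
    have hmem : sInf s ∈ s := hs.csInf_mem hne hbd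
    have hlt : x < sInf s := lt_of_le_of_ne hmem.1 (fun h' => hmem.2 (h' ▸ hx))
    have hIco : Ico x (sInf s) ⊆ O := by
      intro z hz
      by_contra hzO
      exact absurd (csInf_le hbd (show z ∈ s from ⟨hz.1, hzO⟩)) (not_le.2 hz.2)
    refine ⟨sInf s, hmem.2, ?_, hlt, hIco⟩
    have h2 : sInf s ∈ closure (Ico x (sInf s)) := by
      rw [closure_Ico hlt.ne]
      exact ⟨hlt.le, le_rfl⟩
    exact closure_mono hIco h2

variable {n s t : ℕ} (F : Par (Fin n) s t)

/-- The vertices at which both `i` and `j` attain the minimum. -/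
def VV (i j : Fin n) : Set (ℝ × ℝ) :=
  {x | i ∈ att F.f x ∧ j ∈ att F.f x ∧ 3 ≤ (att F.f x).encard}

theorem att_eq_of {i j : Fin n} {x : ℝ × ℝ} (hi : i ∈ att F.f x) (hj : j ∈ att F.f x) :
    F.f i x = F.f j x := le_antisymm (hi j) (hj i)

theorem mem_att_of_eq {i j : Fin n} {x : ℝ × ℝ} (hi : i ∈ att F.f x) (h : F.f j x = F.f i x) :
    j ∈ att F.f x := fun l => by rw [h]; exact hi l

/-- The set of parameters of the arc at which exactly `i` and `j` attain the minimum. -/
def OO (i j : Fin n) (α : Fin (F.m i j)) : Set ℝ := {τ | att F.f (F.c i j α τ) = {i, j}}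

theorem OO_eq (i j : Fin n) (α : Fin (F.m i j)) :
    OO F i j α = ⋂ l ∈ {l : Fin n | l ≠ i ∧ l ≠ j},
      {τ | F.f i (F.c i j α τ) < F.f l (F.c i j α τ)} := by
  ext τ
  simp only [OO, mem_iInter, Set.mem_ofPred_eq]
  constructor
  · intro h l hl
    have hi : i ∈ att F.f (F.c i j α τ) := by rw [h]; simp
    refine lt_of_le_of_ne (hi l) ?_
    intro h'
    have : l ∈ att F.f (F.c i j α τ) := mem_att_of_eq F hi h'.symm
    rw [h] at this
    rcases this with h1 | h1
    · exact hl.1 h1
    · exact hl.2 h1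
  · intro h
    have hij := F.c_eq i j α τ
    have hi : i ∈ att F.f (F.c i j α τ) := by
      intro l
      by_cases h1 : l = i
      · rw [h1]
      by_cases h2 : l = j
      · rw [h2]; exact hij.le
      exact (h l ⟨h1, h2⟩).le
    ext l
    constructor
    · intro hl
      by_contra hne
      have h1 : l ≠ i := fun h' => hne (by simp [h'])
      have h2 : l ≠ j := fun h' => hne (by simp [h'])
      exact absurd (hl i) (not_le.2 (h l ⟨h1, h2⟩))
    · intro hl
      rcases hl with h1 | h1
      · rw [h1]; exact hi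
      · rw [h1]; exact mem_att_of_eq F hi hij.symm

theorem OO_open (i j : Fin n) (α : Fin (F.m i j)) : IsOpen (OO F i j α) := by
  rw [OO_eq]
  refine Set.Finite.isOpen_biInter (Set.toFinite _) ?_
  intro l _
  exact isOpen_lt ((F.cont i).comp (F.c_cont i j α)) ((F.cont l).comp (F.c_cont i j α))

theorem frontier_mem {i j : Fin n} (hij : i ≠ j) {α : Fin (F.m i j)} {p : ℝ} (hp : p ∉ OO F i j α)
    (hp' : p ∈ closure (OO F i j α)) : F.c i j α p ∈ VV F i j := by
  have hi : i ∈ att F.f (F.c i j α p) := by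
    intro l
    have hcl : IsClosed {τ | F.f i (F.c i j α τ) ≤ F.f l (F.c i j α τ)} :=
      isClosed_le ((F.cont i).comp (F.c_cont i j α)) ((F.cont l).comp (F.c_cont i j α))
    have hsub : OO F i j α ⊆ {τ | F.f i (F.c i j α τ) ≤ F.f l (F.c i j α τ)} := by
      intro τ hτ
      have : i ∈ att F.f (F.c i j α τ) := by
        rw [show att F.f (F.c i j α τ) = {i, j} from hτ]; simp
      exact this l
    exact (hcl.closure_subset_iff.2 hsub) hp'
  have hj : j ∈ att F.f (F.c i j α p) := mem_att_of_eq F hi (F.c_eq i j α p).symm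
  refine ⟨hi, hj, ?_⟩
  by_contra hlt
  push Not at hlt
  apply hp
  show att F.f (F.c i j α p) = {i, j}
  have hsub : ({i, j} : Set (Fin n)) ⊆ att F.f (F.c i j α p) := by
    intro l hl
    rcases hl with h | h
    · rw [h]; exact hi
    · rw [h]; exact hj
  by_contra hne
  obtain ⟨l, hl, hl'⟩ := exists_of_ssubset (ssubset_of_subset_of_ne hsub (Ne.symm hne))
  have h3 : ({l, i, j} : Set (Fin n)) ⊆ att F.f (F.c i j α p) := by
    intro m hm
    rcases hm with h | h
    · rw [h]; exact hl
    · exact hsub h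
  have h4 : ({l, i, j} : Set (Fin n)).encard = 3 := by
    rw [Set.encard_insert_of_notMem hl', Set.encard_pair hij]
    norm_num
  have h5 := Set.encard_le_encard h3
  rw [h4] at h5
  exact absurd h5 (not_le.2 hlt)

/-- The set in which exactly `i` and `j` attain the minimum. -/
def DD (i j : Fin n) : Set (ℝ × ℝ) := {x | att F.f x = {i, j}}

/-- The pieces covering it. -/
def SS (i j : Fin n) : (↥((F.P i j : Set (ℝ × ℝ))) ⊕ (Fin (F.m i j) ⊕ ↥(VV F i j))) → Set (ℝ × ℝ)
  | Sum.inl p => {(p : ℝ × ℝ)} ∩ DD F i j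
  | Sum.inr (Sum.inl α) => F.c i j α '' compI (OO F i j α)
  | Sum.inr (Sum.inr v) => {y | ∃ α τ, F.c i j α τ = v ∧ y ∈ F.c i j α '' compR (OO F i j α) τ}

theorem card_pair {i j : Fin n} (hij : i ≠ j) :
    ENat.card (ConnectedComponents (DD F i j)) ≤ 2 * t + (VV F i j).encard := by
  have h1 : ENat.card (ConnectedComponents (DD F i j)) ≤
      ENat.card (↥((F.P i j : Set (ℝ × ℝ))) ⊕ (Fin (F.m i j) ⊕ ↥(VV F i j))) := by
    refine card_components_le (DD F i j) (SS F i j) ?_ ?_ ?_
    · rintro (p | α | v)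
      · exact (Set.subsingleton_singleton.anti inter_subset_left).isPreconnected
      · exact (compI_pre _).image _ (F.c_cont i j α).continuousOn
      · show IsPreconnected {y | ∃ α τ, F.c i j α τ = v ∧ y ∈ F.c i j α '' compR (OO F i j α) τ}
        rcases Set.eq_empty_or_nonempty
          {y | ∃ α τ, F.c i j α τ = v ∧ y ∈ F.c i j α '' compR (OO F i j α) τ} with h | ⟨y, α, τ, h, _⟩
        · rw [h]; exact isPreconnected_empty
        · have : {y | ∃ α τ, F.c i j α τ = v ∧ y ∈ F.c i j α '' compR (OO F i j α) τ} =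
              F.c i j α '' compR (OO F i j α) τ := by
            ext z
            constructor
            · rintro ⟨β, σ, h1, h2⟩
              obtain ⟨h3, h4⟩ := F.c_inj i j β α σ τ (h1.trans h.symm)
              subst h3; subst h4; exact h2
            · intro hz
              exact ⟨α, τ, h, hz⟩
          rw [this]
          exact (compR_pre _ _).image _ (F.c_cont i j α).continuousOn
    · rintro (p | α | v)
      · exact inter_subset_right
      · rintro _ ⟨τ, hτ, rfl⟩
        exact compI_sub _ hτ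
      · rintro _ ⟨α, τ, h, σ, hσ, rfl⟩
        exact compR_sub _ _ hσ
    · intro x hx
      have hx' : att F.f x = {i, j} := hx
      have hi : i ∈ att F.f x := by rw [hx']; simp
      have hj : j ∈ att F.f x := by rw [hx']; simp
      have he := att_eq_of F hi hj
      rw [mem_iUnion]
      by_cases hP : x ∈ F.P i j
      · exact ⟨Sum.inl ⟨x, hP⟩, rfl, hx⟩
      · obtain ⟨α, τ, rfl⟩ := F.c_surj i j x hij he hP
        rcases open_cover (OO F i j α) (OO_open F i j α) (show τ ∈ OO F i j α from hx') with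
          h | ⟨p, hp, hp', h⟩
        · exact ⟨Sum.inr (Sum.inl α), τ, h, rfl⟩
        · exact ⟨Sum.inr (Sum.inr ⟨F.c i j α p, frontier_mem F hij hp hp'⟩), α, p, rfl, τ, h, rfl⟩
  refine h1.trans ?_
  rw [ENat.card_sum, ENat.card_sum]
  have h2 : ENat.card ↥((F.P i j : Set (ℝ × ℝ))) ≤ t := by
    rw [ENat.card_coe_set_eq, Set.encard_coe_eq_coe_finsetCard]
    exact_mod_cast F.P_card i j
  have h3 : ENat.card (Fin (F.m i j)) ≤ t := by
    simp only [ENat.card_eq_coe_fintype_card, Fintype.card_fin]
    exact_mod_cast F.m_le i j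
  have h4 : ENat.card ↥(VV F i j) = (VV F i j).encard := ENat.card_coe_set_eq _
  rw [h4]
  calc _ ≤ (t : ℕ∞) + (t + (VV F i j).encard) := by gcongr
    _ = 2 * t + (VV F i j).encard := by ring

/-- At a point where the minimum is attained by at most three functions, at most three pairs attain
it. -/
theorem pairs_le (A : Finset (Fin n)) (hA : A.card ≤ 3) :
    ∑ i, ∑ j ∈ Finset.Ioi i, (if i ∈ A ∧ j ∈ A then 1 else 0) ≤ 3 := by
  classical
  rw [Finset.sum_sigma']
  rw [← Finset.card_filter]
  have h1 : ((Finset.univ.sigma fun i : Fin n => Finset.Ioi i).filter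
      fun z : (_ : Fin n) × Fin n => z.1 ∈ A ∧ z.2 ∈ A).card ≤ (A.powersetCard 2).card := by
    refine Finset.card_le_card_of_injOn (fun z => {z.1, z.2}) ?_ ?_
    · intro z hz
      simp only [Finset.coe_filter, Finset.mem_sigma, Finset.mem_univ, true_and, Finset.mem_Ioi,
        Set.mem_ofPred_eq] at hz
      simp only [Finset.mem_coe, Finset.mem_powersetCard]
      refine ⟨?_, Finset.card_pair hz.1.ne⟩
      intro l hl
      simp only [Finset.mem_insert, Finset.mem_singleton] at hl
      rcases hl with h | h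
      · rw [h]; exact hz.2.1
      · rw [h]; exact hz.2.2
    · intro z hz w hw h
      simp only [Finset.coe_filter, Finset.mem_sigma, Finset.mem_univ, true_and, Finset.mem_Ioi,
        Set.mem_ofPred_eq] at hz hw
      obtain ⟨z1, z2⟩ := z
      obtain ⟨w1, w2⟩ := w
      simp only at hz hw h
      have hz1 : z1 ∈ ({w1, w2} : Finset (Fin n)) := by rw [← h]; simp
      have hz2 : z2 ∈ ({w1, w2} : Finset (Fin n)) := by rw [← h]; simp
      simp only [Finset.mem_insert, Finset.mem_singleton] at hz1 hz2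
      have hl := hz.1
      have hl' := hw.1
      rcases hz1 with h1 | h1 <;> rcases hz2 with h2 | h2
      · subst h1; subst h2; exact absurd hl (lt_irrefl _)
      · subst h1; subst h2; rfl
      · subst h1; subst h2; exact absurd (hl.trans hl') (lt_irrefl _)
      · subst h1; subst h2; exact absurd hl (lt_irrefl _)
  refine h1.trans ?_
  rw [Finset.card_powersetCard]
  calc A.card.choose 2 ≤ Nat.choose 3 2 := Nat.choose_le_choose 2 hA
    _ = 3 := by decide

theorem att_le (x : ℝ × ℝ) : (att F.f x).encard ≤ 3 := by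
  by_contra hlt
  push Not at hlt
  have h4 : (4 : ℕ∞) ≤ (att F.f x).encard := by
    have := Order.add_one_le_of_lt hlt
    exact le_trans (by norm_num) this
  obtain ⟨B, hB, hB4⟩ := Set.exists_subset_encard_eq h4
  obtain ⟨a, C, haC, rfl, hC⟩ := (Set.encard_eq_add_one_iff (k := 3)).1 (by rw [hB4]; norm_num)
  obtain ⟨b, c, d, hbc, hbd, hcd, rfl⟩ := Set.encard_eq_three.1 hC
  have ha : a ∈ att F.f x := hB (by simp)
  have hb : b ∈ att F.f x := hB (by simp)
  have hc : c ∈ att F.f x := hB (by simp)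
  have hd : d ∈ att F.f x := hB (by simp)
  refine F.quad a b c d ?_ ?_ ?_ hbc hbd hcd x ⟨att_eq_of F ha hb, att_eq_of F hb hc,
    att_eq_of F hc hd⟩
  · rintro rfl; simp at haC
  · rintro rfl; simp at haC
  · rintro rfl; simp at haC

theorem sum_VV : ∑ i, ∑ j ∈ Finset.Ioi i, (VV F i j).encard ≤ 3 * vertices F.f := by
  classical
  rcases Set.finite_or_infinite {x | 3 ≤ (att F.f x).encard} with hfin | hinf
  · have hV : ∀ i j, (VV F i j).encard =
        ((∑ x ∈ hfin.toFinset,
          (if i ∈ (att F.f x).toFinset ∧ j ∈ (att F.f x).toFinset then 1 else 0) : ℕ) : ℕ∞) := by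
      intro i j
      rw [← Finset.card_filter]
      rw [← Set.encard_coe_eq_coe_finsetCard]
      congr 1
      ext x
      simp only [VV, Set.mem_ofPred_eq, Finset.coe_filter, Set.Finite.mem_toFinset, Set.mem_toFinset]
      tauto
    have h1 : ∑ i : Fin n, ∑ j ∈ Finset.Ioi i, (∑ x ∈ hfin.toFinset,
          (if i ∈ (att F.f x).toFinset ∧ j ∈ (att F.f x).toFinset then 1 else 0)) =
        ∑ x ∈ hfin.toFinset, ∑ i, ∑ j ∈ Finset.Ioi i,
          (if i ∈ (att F.f x).toFinset ∧ j ∈ (att F.f x).toFinset then 1 else 0) := by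
      rw [Finset.sum_comm]
      refine Finset.sum_congr rfl fun i _ => ?_
      rw [Finset.sum_comm]
    have h2 : ∑ x ∈ hfin.toFinset, ∑ i, ∑ j ∈ Finset.Ioi i,
          (if i ∈ (att F.f x).toFinset ∧ j ∈ (att F.f x).toFinset then 1 else 0) ≤
        hfin.toFinset.card * 3 := by
      rw [← smul_eq_mul]
      refine Finset.sum_le_card_nsmul _ _ _ fun x _ => ?_
      refine pairs_le _ ?_
      have := att_le F x
      rw [Set.encard_eq_coe_toFinset_card] at this
      exact_mod_cast this
    have h3 : vertices F.f = (hfin.toFinset.card : ℕ∞) := by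
      rw [vertices, hfin.encard_eq_coe_toFinset_card]
    rw [h3]
    simp only [hV]
    rw [mul_comm]
    exact_mod_cast h1.le.trans h2
  · rw [vertices, hinf.encard_eq]
    simp

theorem stmtEdges : StmtEdges := by
  intro n s t F
  have h1 : edges F.f ≤ ∑ i, ∑ j ∈ Finset.Ioi i, (2 * t + (VV F i j).encard) := by
    refine Finset.sum_le_sum fun i _ => Finset.sum_le_sum fun j hj => ?_
    exact card_pair F (Finset.mem_Ioi.1 hj).ne
  refine h1.trans ?_
  simp only [Finset.sum_add_distrib]
  refine add_le_add ?_ (sum_VV F)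
  calc ∑ i : Fin n, ∑ j ∈ Finset.Ioi i, (2 * t : ℕ∞) ≤ ∑ i : Fin n, ∑ j : Fin n, (2 * t : ℕ∞) := by
        refine Finset.sum_le_sum fun i _ => ?_
        exact Finset.sum_le_sum_of_subset (Finset.subset_univ _)
    _ = 2 * t * (n : ℕ∞) ^ 2 := by
        simp only [Finset.sum_const, Finset.card_univ, Fintype.card_fin, nsmul_eq_mul]
        ring

end Pool.Agent.Helper8.Env
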