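import Pool.Agent.Helper8.Env.Edges

/-!
# Packet K of MP_07d5fa_co: faces are controlled by edges and vertices
-/

namespace Pool.Agent.Helper8.Env

open Set Pool.Agent.Helper57.Env

theorem card_sigma_le {α : Type*} [Fintype α] (β : α → Type*) :
    ENat.card (Σ a, β a) ≤ ∑ a, ENat.card (β a) := by
  have h1 : (Set.univ : Set (Σ a, β a)) = ⋃ a, Set.range (Sigma.mk a) := by
    ext ⟨a, b⟩
    simp
  rw [← Set.encard_univ, h1]
  refine (Set.encard_iUnion_le_of_fintype _).trans ?_
  refine Finset.sum_le_sum fun a _ => ?_
  rw [← Set.image_univ, ← Set.encard_univ]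
  exact Set.encard_image_le _ _

theorem isClosed_cc {Y : Type*} [TopologicalSpace Y] {R : Set Y} (hR : IsClosed R) {x : Y} (hx : x ∈ R) :
    IsClosed (connectedComponentIn R x) := by
  have h1 : closure (connectedComponentIn R x) ⊆ connectedComponentIn R x := by
    refine isPreconnected_connectedComponentIn.closure.subset_connectedComponentIn
      (subset_closure (mem_connectedComponentIn hx)) ?_
    exact hR.closure_subset_iff.2 (connectedComponentIn_subset R x)
  exact isClosed_of_closure_subset h1

variable {n : ℕ} (f : Fin n → ℝ × ℝ → ℝ)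

theorem mem_att_of_eq' {i j : Fin n} {x : ℝ × ℝ} (hi : i ∈ att f x) (h : f j x = f i x) :
    j ∈ att f x := fun l => by rw [h]; exact hi l

theorem att_eq_of' {i j : Fin n} {x : ℝ × ℝ} (hi : i ∈ att f x) (hj : j ∈ att f x) :
    f i x = f j x := le_antisymm (hi j) (hj i)

theorem isClosed_att (hf : ∀ i, Continuous (f i)) (i : Fin n) : IsClosed {x | i ∈ att f x} := by
  have : {x | i ∈ att f x} = ⋂ j, {x | f i x ≤ f j x} := by
    ext x
    simp [att]
  rw [this]
  exact isClosed_iInter fun j => isClosed_le (hf i) (hf j)

/-- The pieces of the cover of the region of `i`. -/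
noncomputable def SF (i : Fin n) :
    (Unit ⊕ ((Σ j : {j : Fin n // j ≠ i}, ConnectedComponents ↥{x | att f x = {i, j.1}}) ⊕
      ↥{x | i ∈ att f x ∧ 3 ≤ (att f x).encard})) → Set (ℝ × ℝ)
  | Sum.inl _ => {x | {x | i ∈ att f x} = univ}
  | Sum.inr (Sum.inl e) => connectedComponentIn {x | i ∈ att f x}
      (Function.surjInv ConnectedComponents.surjective_coe e.2).1
  | Sum.inr (Sum.inr v) => connectedComponentIn {x | i ∈ att f x} v.1

theorem card_region (hf : ∀ i, Continuous (f i)) (i : Fin n) :
    ENat.card (ConnectedComponents ↥{x | i ∈ att f x}) ≤ 1 +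
      ((∑ j : {j : Fin n // j ≠ i}, ENat.card (ConnectedComponents ↥{x | att f x = {i, j.1}})) +
      {x | i ∈ att f x ∧ 3 ≤ (att f x).encard}.encard) := by
  classical
  have h1 : ENat.card (ConnectedComponents ↥{x | i ∈ att f x}) ≤
      ENat.card (Unit ⊕ ((Σ j : {j : Fin n // j ≠ i}, ConnectedComponents ↥{x | att f x = {i, j.1}}) ⊕
      ↥{x | i ∈ att f x ∧ 3 ≤ (att f x).encard})) := by
    refine card_components_le _ (SF f i) ?_ ?_ ?_
    · rintro (u | e | v)
      · show IsPreconnected {x : ℝ × ℝ | {x | i ∈ att f x} = univ}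
        by_cases h : {x | i ∈ att f x} = univ
        · simp only [h, Set.ofPred_true]
          exact isPreconnected_univ
        · simp only [h, Set.ofPred_false]
          exact isPreconnected_empty
      · exact isPreconnected_connectedComponentIn
      · exact isPreconnected_connectedComponentIn
    · rintro (u | e | v)
      · intro x hx
        have hx' : {x | i ∈ att f x} = univ := hx
        rw [hx']; trivial
      · exact connectedComponentIn_subset _ _
      · exact connectedComponentIn_subset _ _
    · intro y hy
      rw [mem_iUnion]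
      set R : Set (ℝ × ℝ) := {x | i ∈ att f x} with hR
      by_cases h3 : ∃ x ∈ connectedComponentIn R y, 3 ≤ (att f x).encard
      · obtain ⟨x, hx, hx3⟩ := h3
        have hxR : x ∈ R := connectedComponentIn_subset _ _ hx
        refine ⟨Sum.inr (Sum.inr ⟨x, hxR, hx3⟩), ?_⟩
        show y ∈ connectedComponentIn R x
        rw [← connectedComponentIn_eq hx]
        exact mem_connectedComponentIn hy
      by_cases h2 : ∃ x ∈ connectedComponentIn R y, ∃ j, j ≠ i ∧ att f x = {i, j}
      · obtain ⟨x, hx, j, hji, hxj⟩ := h2
        have hxR : x ∈ R := connectedComponentIn_subset _ _ hx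
        let D : Set (ℝ × ℝ) := {x | att f x = {i, j}}
        let e : ConnectedComponents ↥D := ConnectedComponents.mk (⟨x, hxj⟩ : ↥D)
        refine ⟨Sum.inr (Sum.inl ⟨⟨j, hji⟩, e⟩), ?_⟩
        show y ∈ connectedComponentIn R (Function.surjInv ConnectedComponents.surjective_coe e).1
        let x' : ↥D := Function.surjInv ConnectedComponents.surjective_coe e
        have hx' : ConnectedComponents.mk x' = e := Function.surjInv_eq _ _
        have hx2 : x' ∈ connectedComponent (⟨x, hxj⟩ : ↥D) := by
          rw [ConnectedComponents.coe_eq_coe'] at hx'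
          exact hx'
        have hx3 : x'.1 ∈ connectedComponentIn R x := by
          have hpre : IsPreconnected (Subtype.val '' (connectedComponent (⟨x, hxj⟩ : ↥D))) :=
            isPreconnected_connectedComponent.image _ continuous_subtype_val.continuousOn
          refine hpre.subset_connectedComponentIn ⟨⟨x, hxj⟩, mem_connectedComponent, rfl⟩ ?_ ⟨x', hx2, rfl⟩
          rintro _ ⟨z, _, rfl⟩
          have hz : att f z.1 = {i, j} := z.2
          show i ∈ att f z.1
          rw [hz]; simp
        show y ∈ connectedComponentIn R x'.1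
        rw [← connectedComponentIn_eq hx3, ← connectedComponentIn_eq hx]
        exact mem_connectedComponentIn hy
      · refine ⟨Sum.inl (), ?_⟩
        show R = univ
        have hcl : IsClosed (connectedComponentIn R y) := isClosed_cc (isClosed_att f hf i) hy
        have hop : IsOpen (connectedComponentIn R y) := by
          rw [isOpen_iff_mem_nhds]
          intro x hx
          have hxR : x ∈ R := connectedComponentIn_subset _ _ hx
          have hlt : ∀ j, j ≠ i → f i x < f j x := by
            intro j hj
            refine lt_of_le_of_ne (hxR j) ?_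
            intro heq
            have hjm : j ∈ att f x := mem_att_of_eq' f hxR heq.symm
            have hne : att f x ≠ {i, j} := fun h => h2 ⟨x, hx, j, hj, h⟩
            have hsub : ({i, j} : Set (Fin n)) ⊆ att f x := by
              intro l hl
              rcases hl with h | h
              · rw [h]; exact hxR
              · rw [h]; exact hjm
            obtain ⟨l, hl, hl'⟩ := exists_of_ssubset (ssubset_of_subset_of_ne hsub (Ne.symm hne))
            have h5 : ({l, i, j} : Set (Fin n)) ⊆ att f x := by
              intro m hm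
              rcases hm with h | h
              · rw [h]; exact hl
              · exact hsub h
            have h4 : ({l, i, j} : Set (Fin n)).encard = 3 := by
              rw [Set.encard_insert_of_notMem hl', Set.encard_pair hj.symm]
              norm_num
            have h6 := Set.encard_le_encard h5
            rw [h4] at h6
            exact h3 ⟨x, hx, h6⟩
          let U : Set (ℝ × ℝ) := ⋂ j ∈ {j : Fin n | j ≠ i}, {z | f i z < f j z}
          have hU : IsOpen U :=
            Set.Finite.isOpen_biInter (Set.toFinite _) fun j _ => isOpen_lt (hf i) (hf j)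
          have hxU : x ∈ U := by
            simp only [U, mem_iInter]
            intro j hj
            exact hlt j hj
          have hUR : U ⊆ R := by
            intro z hz j
            by_cases hji : j = i
            · rw [hji]
            · simp only [U, mem_iInter] at hz
              exact (hz j hji).le
          obtain ⟨ε, hε, hball⟩ := Metric.isOpen_iff.1 hU x hxU
          have hpre : IsPreconnected (Metric.ball x ε) := (convex_ball x ε).isPreconnected
          have hsub2 : Metric.ball x ε ⊆ connectedComponentIn R y := by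
            rw [connectedComponentIn_eq hx]
            exact hpre.subset_connectedComponentIn (Metric.mem_ball_self hε) (hball.trans hUR)
          exact Filter.mem_of_superset (Metric.ball_mem_nhds x hε) hsub2
        have huniv : connectedComponentIn R y = univ :=
          IsClopen.eq_univ ⟨hcl, hop⟩ ⟨y, mem_connectedComponentIn hy⟩
        exact eq_univ_of_univ_subset (huniv ▸ connectedComponentIn_subset R y)
  refine h1.trans ?_
  rw [ENat.card_sum, ENat.card_sum]
  have h2 : ENat.card Unit = 1 := by simp
  have h4 : ENat.card ↥{x | i ∈ att f x ∧ 3 ≤ (att f x).encard} =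
      {x | i ∈ att f x ∧ 3 ≤ (att f x).encard}.encard := ENat.card_coe_set_eq _
  rw [h4, h2]
  gcongr
  exact card_sigma_le _

theorem att_le' (hq : ∀ i j k l, i ≠ j → i ≠ k → i ≠ l → j ≠ k → j ≠ l → k ≠ l →
      ∀ x, ¬ (f i x = f j x ∧ f j x = f k x ∧ f k x = f l x)) (x : ℝ × ℝ) :
    (att f x).encard ≤ 3 := by
  by_contra hlt
  push Not at hlt
  have h4 : (4 : ℕ∞) ≤ (att f x).encard := by
    have := Order.add_one_le_of_lt hlt
    exact le_trans (by norm_num) this
  obtain ⟨B, hB, hB4⟩ := Set.exists_subset_encard_eq h4
  obtain ⟨a, C, haC, rfl, hC⟩ := (Set.encard_eq_add_one_iff (k := 3)).1 (by rw [hB4]; norm_num)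
  obtain ⟨b, c, d, hbc, hbd, hcd, rfl⟩ := Set.encard_eq_three.1 hC
  have ha : a ∈ att f x := hB (by simp)
  have hb : b ∈ att f x := hB (by simp)
  have hc : c ∈ att f x := hB (by simp)
  have hd : d ∈ att f x := hB (by simp)
  refine hq a b c d ?_ ?_ ?_ hbc hbd hcd x ⟨att_eq_of' f ha hb, att_eq_of' f hb hc,
    att_eq_of' f hc hd⟩
  · rintro rfl; simp at haC
  · rintro rfl; simp at haC
  · rintro rfl; simp at haC

theorem sum_V (hq : ∀ i j k l, i ≠ j → i ≠ k → i ≠ l → j ≠ k → j ≠ l → k ≠ l →
      ∀ x, ¬ (f i x = f j x ∧ f j x = f k x ∧ f k x = f l x)) :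
    ∑ i, {x | i ∈ att f x ∧ 3 ≤ (att f x).encard}.encard ≤ 3 * vertices f := by
  classical
  rcases Set.finite_or_infinite {x | 3 ≤ (att f x).encard} with hfin | hinf
  · have hV : ∀ i, {x | i ∈ att f x ∧ 3 ≤ (att f x).encard}.encard =
        ((∑ x ∈ hfin.toFinset, (if i ∈ (att f x).toFinset then 1 else 0) : ℕ) : ℕ∞) := by
      intro i
      rw [← Finset.card_filter]
      rw [← Set.encard_coe_eq_coe_finsetCard]
      congr 1
      ext x
      simp only [Set.mem_ofPred_eq, Finset.coe_filter, Set.Finite.mem_toFinset, Set.mem_toFinset]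
      tauto
    have h1 : ∑ i : Fin n, (∑ x ∈ hfin.toFinset, (if i ∈ (att f x).toFinset then 1 else 0)) =
        ∑ x ∈ hfin.toFinset, ∑ i : Fin n, (if i ∈ (att f x).toFinset then 1 else 0) :=
      Finset.sum_comm
    have h2 : ∑ x ∈ hfin.toFinset, ∑ i : Fin n, (if i ∈ (att f x).toFinset then 1 else 0) ≤
        hfin.toFinset.card * 3 := by
      rw [← smul_eq_mul]
      refine Finset.sum_le_card_nsmul _ _ _ fun x _ => ?_
      have := att_le' f hq x
      rw [Set.encard_eq_coe_toFinset_card] at this
      rw [← Finset.card_filter, Finset.filter_mem_eq_inter, Finset.univ_inter]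
      exact_mod_cast this
    have h3 : vertices f = (hfin.toFinset.card : ℕ∞) := by
      rw [vertices, hfin.encard_eq_coe_toFinset_card]
    rw [h3]
    simp only [hV]
    rw [mul_comm]
    exact_mod_cast h1.le.trans h2
  · rw [vertices, hinf.encard_eq]
    simp

theorem sum_sym (E : Fin n → Fin n → ℕ∞) (hE : ∀ i j, E i j = E j i) :
    ∑ i, ∑ j : {j : Fin n // j ≠ i}, E i j.1 = 2 * ∑ i, ∑ j ∈ Finset.Ioi i, E i j := by
  classical
  have h1 : ∀ i, ∑ j : {j : Fin n // j ≠ i}, E i j.1 =
      ∑ j ∈ Finset.Ioi i, E i j + ∑ j ∈ Finset.Iio i, E i j := by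
    intro i
    rw [← Finset.sum_union]
    · rw [← Finset.sum_subtype]
      intro x
      simp only [Finset.mem_union, Finset.mem_Ioi, Finset.mem_Iio]
      constructor
      · rintro (h | h)
        · exact h.ne'
        · exact h.ne
      · intro h
        exact (lt_or_gt_of_ne h).symm
    · rw [Finset.disjoint_left]
      intro x hx hx'
      exact absurd (Finset.mem_Ioi.1 hx) (not_lt.2 (Finset.mem_Iio.1 hx').le)
  have h2 : ∑ i, ∑ j ∈ Finset.Iio i, E i j = ∑ j, ∑ i ∈ Finset.Ioi j, E j i := by
    rw [Finset.sum_comm' (t' := Finset.univ) (s' := fun j => Finset.Ioi j)]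
    · refine Finset.sum_congr rfl fun j _ => Finset.sum_congr rfl fun i _ => hE i j
    · intro x y
      simp
  simp only [h1]
  rw [Finset.sum_add_distrib, h2, two_mul]

theorem stmtFaces : StmtFaces := by
  intro n f hf hq
  have h1 : faces f ≤ ∑ i : Fin n, (1 +
      ((∑ j : {j : Fin n // j ≠ i}, ENat.card (ConnectedComponents ↥{x | att f x = {i, j.1}})) +
      {x | i ∈ att f x ∧ 3 ≤ (att f x).encard}.encard)) :=
    Finset.sum_le_sum fun i _ => card_region f hf i
  refine h1.trans ?_
  rw [Finset.sum_add_distrib, Finset.sum_add_distrib, ← add_assoc]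
  have h2 := sum_sym (n := n) (fun i j => ENat.card (ConnectedComponents ↥{x | att f x = {i, j}}))
    (fun i j => by rw [Set.pair_comm])
  rw [h2]
  refine add_le_add ?_ (sum_V f hq)
  refine add_le_add ?_ le_rfl
  simp

end Pool.Agent.Helper8.Env
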